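import Pool.Agent.H5.BHG.Final4

/-!
# Parity games with common successors or with large outdegrees

For every `t ≥ 1` there is a polynomial time algorithm which never gives a wrong answer for a parity
game, and which solves all parity games in which any `t` vertices of the player `◇` and any `t`
vertices of the player `□` contain a vertex of `◇` and a vertex of `□` which are joined by an arc or
have a common successor. So it solves all parity games on the random directed graph with `n` vertices
and arc probability `p` with probability at least `1 - n ^ 2 (1 - p ^ 2) ^ n`. For every `C` there is a
polynomial time algorithm which solves all parity games with `n` vertices in which the sum of the
outdegrees of any vertex of `◇` and any vertex of `□` is at least `n - C log n`, so all parity games in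
which all outdegrees are at least `n / 2 - C log n`; but if outdegrees at least `n / 2 - n ^ ε` are
enough, then all parity games are solvable in polynomial time.

`Game` is the type of lists of vertices; a vertex is given by its owner, its priority and the list of
its successors (positions in the list of the vertices). Polynomial time is that of the prelude:
Mathlib's Turing machines `TM2`, and the natural encoding of lists and pairs, with numbers in binary.

Proof: Let `B` be a winning region of the player `j` in a subgame `X` which is closed under attractors.
The successors in `X` of the vertices of `B` owned by the other player are in `B`, and those of the
vertices of `X \ B` owned by `j` are in `X \ B`. Moreover, if a vertex of `◇` and a vertex of `□` of a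
subgame `X` which arises in Zielonka's algorithm have a common successor in the game, it is in `X`: when
an attractor of `i` is removed, the vertices of `i` which stay have no successors in it. So `B` has less
than `t` vertices of the other player, or `X \ B` has less than `t` vertices of `j`. The regions of the
first kind are found by trying all small sets of vertices, and removed; then Zielonka's algorithm calls
itself once, and a second time only for a game in which one player has less than `t` vertices. Such
games are solved in the same way: after the removal of the regions all whose vertices are owned by the
same player, both players have fewer vertices in the second call.

For large outdegrees: if `v` is a vertex of `j` in `X \ B`, then `B` is in the set `T_v` of all vertices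
`≠ v` which are not successors of `v`. The vertices of the other player in the largest part of `T_v` which
he cannot leave have no common successors with `v`, so they have only `O(log n)` non-successors in `T_v`.
In a game in which all vertices of one player have `O(log n)` non-successors, all regions or their
complements are small or have only one owner; so it is solved by the same method, and dynamic
programming over all subsets for `O(log n)` vertices. Hence all regions `B` are found, unless `X \ B` has no
vertices of `j`.

For the last part, add to the game two large sets of new vertices, one won by `◇` and one won by `□`,
and arcs from all vertices of `◇` to the second set and from all vertices of `□` to the first set.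
-/

set_option autoImplicit false

namespace Pool.Agent.Results.MP_e3dc0b_lc.CommonSuccessors

open Pool.PG Pool.DPG Pool.BHG N68a2faeb

open Classical in
/-- For every `t ≥ 1` there is a polynomial time algorithm `A` such that for every parity game `g` the
list `A g` is empty or it is the list of the winners of all vertices; it is the list of the winners if
any `t` vertices of `◇` and any `t` vertices of `□` contain two which are joined by an arc or have a
common successor; and the probability that `A g` is empty for some parity game `g` on the random directed
graph with `n` vertices and arc probability `p` is at most `n ^ 2 (1 - p ^ 2) ^ n`. For every `C` there is a
polynomial time algorithm, also without wrong answers, which lists the winners of all parity games with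
`n` vertices in which the sum of the outdegrees of any vertex of `◇` and any vertex of `□` is at least
`n - C log n`. For every `ε > 0`, if the lists of
the winners of the parity games with `n` vertices in which all outdegrees are at least `n / 2 - n ^ ε` can
be computed in polynomial time, then those of all parity games can. -/
theorem result :
    (∀ t : ℕ, 1 ≤ t → ∃ A : Game → List Bool, IsPolyTime A ∧
      (∀ g : Game, Valid g → A g ≠ [] → Solves A g) ∧
      (∀ g : Game, Valid g → Meet t g → Solves A g) ∧
      ∀ (n : ℕ) (p : ℝ), 2 ≤ n → 0 ≤ p → p ≤ 1 →
        ∑ E ∈ Finset.univ.filter (fun E : Fin n → Fin n → Bool =>
          ∃ (o : Fin n → Bool) (q : Fin n → ℕ), A (graphGame o q E) = []), prob p E ≤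
          (n : ℝ) ^ 2 * (1 - p ^ 2) ^ n) ∧
    (∀ C : ℝ, ∃ A : Game → List Bool, IsPolyTime A ∧
      (∀ g : Game, Valid g → A g ≠ [] → Solves A g) ∧
      ∀ g : Game, Valid g →
        (∀ v < g.length, ∀ w < g.length, own g v = true → own g w = false →
          (g.length : ℝ) - C * Real.log g.length ≤
            ((suc g v).toFinset.card : ℝ) + ((suc g w).toFinset.card : ℝ)) →
        Solves A g) ∧
    ∀ ε : ℝ, 0 < ε →
      (∃ A : Game → List Bool, IsPolyTime A ∧ ∀ g : Game, Valid g →
        (∀ v < g.length, (g.length : ℝ) / 2 - (g.length : ℝ) ^ ε ≤ ((suc g v).toFinset.card : ℝ)) →
        Solves A g) →
      ∃ A : Game → List Bool, IsPolyTime A ∧ ∀ g : Game, Valid g → Solves A g :=
  final_all4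

end Pool.Agent.Results.MP_e3dc0b_lc.CommonSuccessors
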