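import Pool.Agent.H59.PG.AllC

/-!
# Parity games in which all vertices are won by the same player

The question of solving parity games in polynomial time is equivalent to the question for the games
in which all vertices are won by the same player, to the question of finding one vertex with its
winner, and to the question of approximating the number of vertices won by `◇` with an error of less
than half the number of vertices.

`Game` is the type of lists of vertices; a vertex is given by its owner, its priority and the list of
its successors (positions in the list of the vertices). Polynomial time is that of the prelude:
Mathlib's Turing machines `TM2`, and the natural encoding of lists and pairs, with numbers in binary.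

Proof: `Pool.PG.rst`. Every vertex is preceded by a vertex of the other player; both players may go
at each of their vertices back to the vertex `v`, through a vertex of the smallest priority which is
good for the other player. All vertices of this game are won by the winner of `v`.
-/

set_option autoImplicit false

namespace Pool.Agent.Results.MP_e3dc0b_lc.HomogeneousGames

open Pool.PG N68a2faeb

/-- The following are equivalent: the winner of a vertex of a parity game can be computed in
polynomial time; the winner of the games all of whose vertices are won by the same player can be
computed in polynomial time; one vertex and its winner can be computed in polynomial time; a number
which differs from the number of vertices won by `◇` by less than half the number of vertices can be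
computed in polynomial time. -/
theorem result :
    [∃ B : Game × ℕ → Bool, IsPolyTime B ∧
      ∀ (g : Game) (v : ℕ), Valid g → v < g.length → (B (g, v) = true ↔ Win g true v),
    ∃ B : Game → Bool, IsPolyTime B ∧
      ∀ (g : Game) (i : Bool), Valid g → 0 < g.length → (∀ v < g.length, Win g i v) → B g = i,
    ∃ B : Game → ℕ × Bool, IsPolyTime B ∧
      ∀ g : Game, Valid g → 0 < g.length → (B g).1 < g.length ∧ Win g (B g).2 (B g).1,
    ∃ B : Game → ℕ, IsPolyTime B ∧
      ∀ g : Game, Valid g → 0 < g.length → 2 * |(B g : ℤ) - numWin g| < g.length].TFAE :=
  homogB_all

end Pool.Agent.Results.MP_e3dc0b_lc.HomogeneousGames
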