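import Pool.Agent.H59.PG.AllC

/-!
# Parity games: labels which are hardly better than random ones

Let `δ < 1/4`. There is a polynomial time algorithm for the winners of parity games if and only if
there is a polynomial time algorithm which labels every vertex of a parity game with one of the two
players, such that at least `N / 2 - N ^ δ` of the labels are right, `N` being the number of
vertices. (Random labels: at least `N / 2 - N ^ (1 / 2 + ε)` are right, with high probability.)

`Game` is the type of lists of vertices; a vertex is given by its owner, its priority and the list of
its successors (positions in the list of the vertices). Polynomial time is that of the prelude:
Mathlib's Turing machines `TM2`, and the natural encoding of lists and pairs, with numbers in binary.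

Proof: (1) `Pool.PG.rst`: a game in which all vertices are won by the winner of a given vertex, and
the number of vertices is odd. (2) Games `t_1, ..., t_(2 N)` are combined by the rows and the negated
rows of a Hadamard matrix: for every column, `◇` first chooses one of the games which have a `1` in
this column. The labels then exclude one of the possibilities `only t_k is won by ◇`, by Parseval's
identity, all sums of labels being odd. (3) A search in which `◇` fixes the choices at his vertices
one after the other, with at most `2 N` alternatives at any time; at the end `□` is alone.
Positional determinacy is proved in `Pool.PG.det_all`.
-/

set_option autoImplicit false

namespace Pool.Agent.Results.MP_e3dc0b_lc.NearRandomLabels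

open Pool.PG N68a2faeb

/-- For every `δ < 1/4`: the winner of a vertex of a parity game can be computed in polynomial time
if and only if labels of all vertices, at least `N / 2 - N ^ δ` of which are right, can be computed
in polynomial time (`N` is the number of vertices). -/
theorem result (δ : ℝ) (hδ : δ < 1 / 4) :
    (∃ B : Game × ℕ → Bool, IsPolyTime B ∧
      ∀ (g : Game) (v : ℕ), Valid g → v < g.length → (B (g, v) = true ↔ Win g true v)) ↔
    ∃ A : Game → List Bool, IsPolyTime A ∧
      ∀ g : Game, Valid g → (g.length : ℝ) / 2 - (g.length : ℝ) ^ δ ≤ right g (A g) :=
  labelsB_all hδ

end Pool.Agent.Results.MP_e3dc0b_lc.NearRandomLabels
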