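import Pool.Agent.H5.RPG.All

/-!
# Parity games with random successors

There is a polynomial time algorithm which never gives a wrong answer for a parity game, and which
solves all but a proportion `C / n` of the games with `n` vertices and `d` independent uniform
successors of every vertex, for arbitrary owners and priorities of the vertices, provided that at
least `δ n` vertices are owned by `◇` and have an even priority and at least `δ n` vertices are owned
by `□` and have an odd priority, where `14 ≤ δ ^ 2 * d`.

`Game` is the type of lists of vertices; a vertex is given by its owner, its priority and the list of
its successors (positions in the list of the vertices). Polynomial time is that of the prelude: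
Mathlib's Turing machines `TM2`, and the natural encoding of lists and pairs, with numbers in binary.
`arena o p s` is the game with the vertices `0, ..., n - 1`, the owners `o`, the priorities `p` and
the successors `s v 0, ..., s v (d - 1)` of the vertex `v`.

Proof: Let `K i` be the set of the vertices owned by the player `i`, with a priority which is good
for `i`, from which `i` can stay in such vertices for ever, and let `R i` be the attractor of `i` to
`K i`; it is won by `i`. If every vertex outside of both sets has only one successor outside of both
sets, the only play which stays outside of both sets gives the winner. Otherwise the algorithm gives
up. For most games the complement of `R i` is small for both players: not much more than the number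
of vertices of the other player. For a fixed set `W` the sets `R i` of the games with leftover set
`W` depend only on the successors of the vertices not in `W`; every vertex of `W` has then at least
one successor in `W` and none in `R i`, and one of them has two different successors in `W`; the sum
over all `W` of the number of these games is `O(n ^ (d n - 1))`.
-/

set_option autoImplicit false

namespace Pool.Agent.Results.MP_e3dc0b_lc.RandomArenas

open Pool.PG Pool.RPG N68a2faeb

/-- There is a polynomial time algorithm `A` such that for every parity game `g` the list `A g` is
empty or it is the list of the winners of all vertices, and such that for all `δ > 0` and `d` with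
`14 ≤ δ ^ 2 * d` there is a `C` such that, for all owners and priorities of `n` vertices such that at
least `δ n` vertices are owned by `◇` and have an even priority and at least `δ n` vertices are owned
by `□` and have an odd priority, `A` gives the empty list for at most `(C / n) * n ^ (d * n)` of the
`n ^ (d * n)` choices of `d` successors of every vertex. -/
theorem result :
    ∃ A : Game → List Bool, IsPolyTime A ∧
      (∀ g : Game, Valid g → A g ≠ [] → (A g).length = g.length ∧
        ∀ v < g.length, Win g ((A g).getD v false) v) ∧
      ∀ (δ : ℝ) (d : ℕ), 0 < δ → 14 ≤ δ ^ 2 * d → ∃ C : ℝ, ∀ (n : ℕ) (o : Fin n → Bool)
        (p : Fin n → ℕ),
        δ * n ≤ (Finset.univ.filter fun v => o v = true ∧ Even (p v)).card →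
        δ * n ≤ (Finset.univ.filter fun v => o v = false ∧ Odd (p v)).card →
        (n : ℝ) * (Finset.univ.filter fun s : Fin n → Fin d → Fin n =>
          A (arena o p s) = []).card ≤ C * (n : ℝ) ^ (d * n) := by
  obtain ⟨A, h1, h2, h3⟩ := mai_all
  refine ⟨A, h1, h2, fun δ d hδ hd => ?_⟩
  obtain ⟨C, hC⟩ := h3 δ d hδ hd
  refine ⟨C, fun n o p ho hp => ?_⟩
  have h := hC n o p (by convert ho) (by convert hp)
  convert h

end Pool.Agent.Results.MP_e3dc0b_lc.RandomArenas
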